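import Mathlib
import Pool.Agent.Helper56.RZ.GoalsB

/-!
Packet RZ-F4 (project of helper56, MP_f32c9c_an): the main term of the second order expansion of the twist
has a positive integral.
-/

set_option autoImplicit false

open Set Filter Topology MeasureTheory
open scoped ContDiff
open Pool.Agent.Helper56.RZ

namespace Pool.Agent.Helper34.RZ

section
variable {N : ℕ} {p : Fin 3 → End N}

theorem mul_ij (hp : Proj3 p) (i j : Fin 3) (h : i ≠ j) (v : E N) : p i (p j v) = 0 := by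
  have h1 := hp.proj i j
  rw [if_neg h] at h1
  have h2 := congrArg (fun A : End N => A v) h1
  simpa using h2

theorem wc_eu (hp : Proj3 p) (d : Tw N p) : d.wc d.eu = 0 := by
  have h := d.wcp d.eu
  have h1 : p 1 d.eu = 0 := by
    have := mul_ij hp 1 2 (by decide) d.eu
    rwa [d.peu] at this
  rw [← h, h1, map_zero]

theorem wu_ec (hp : Proj3 p) (d : Tw N p) : d.wu d.ec = 0 := by
  have h := d.wup d.ec
  have h1 : p 2 d.ec = 0 := by
    have := mul_ij hp 2 1 (by decide) d.ec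
    rwa [d.pec] at this
  rw [← h, h1, map_zero]

theorem p1_eu (hp : Proj3 p) (d : Tw N p) : p 1 d.eu = 0 := by
  have := mul_ij hp 1 2 (by decide) d.eu
  rwa [d.peu] at this

theorem p2_ec (hp : Proj3 p) (d : Tw N p) : p 2 d.ec = 0 := by
  have := mul_ij hp 2 1 (by decide) d.ec
  rwa [d.pec] at this

theorem p0_ec (hp : Proj3 p) (d : Tw N p) : p 0 d.ec = 0 := by
  have := mul_ij hp 0 1 (by decide) d.ec
  rwa [d.pec] at this

theorem p0_eu (hp : Proj3 p) (d : Tw N p) : p 0 d.eu = 0 := by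
  have := mul_ij hp 0 2 (by decide) d.eu
  rwa [d.peu] at this

theorem J_apply (d : Tw N p) (v : E N) : d.J v = d.wc v • d.eu - d.wu v • d.ec := by
  simp [Tw.J]

theorem R_apply (d : Tw N p) (v : E N) : d.R v = v - d.wc v • d.ec - d.wu v • d.eu := by
  simp [Tw.R]

theorem R_ec (hp : Proj3 p) (d : Tw N p) : d.R d.ec = 0 := by
  rw [R_apply, d.wcec, wu_ec hp]; simp

theorem R_eu (hp : Proj3 p) (d : Tw N p) : d.R d.eu = 0 := by
  rw [R_apply, d.wueu, wc_eu hp]; simp

theorem be_contDiff : ContDiff ℝ ∞ Tw.be := by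
  have h : ContDiff ℝ ∞ (fun s : ℝ => 2 - 2 * s) := by fun_prop
  exact Real.smoothTransition.contDiff.comp h

theorem q_line_ec (hp : Proj3 p) (d : Tw N p) (z : E N) (hq : DifferentiableAt ℝ d.q z) :
    fderiv ℝ d.q z d.ec = 2 * d.wc z := by
  have h1 : HasLineDerivAt ℝ d.q (fderiv ℝ d.q z d.ec) z d.ec := hq.hasFDerivAt.hasLineDerivAt _
  have h2 : HasDerivAt (fun t : ℝ => d.q (z + t • d.ec)) (2 * d.wc z) 0 := by
    have he : (fun t : ℝ => d.q (z + t • d.ec))
        = fun t => (d.wc z + t) ^ 2 + (d.wu z) ^ 2 + ‖d.R z‖ ^ 2 := by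
      funext t
      simp [Tw.q, d.wcec, wu_ec hp, R_ec hp]
    rw [he]
    have h3 : HasDerivAt (fun t : ℝ => (d.wc z + t) ^ 2 + (d.wu z) ^ 2 + ‖d.R z‖ ^ 2)
        (2 * (d.wc z + 0) ^ 1 * 1) 0 := by
      have := (((hasDerivAt_id (0 : ℝ)).const_add (d.wc z)).pow 2)
      have := (this.add_const ((d.wu z) ^ 2)).add_const (‖d.R z‖ ^ 2)
      simpa using this
    simpa using h3
  exact h1.unique h2

theorem q_line_eu (hp : Proj3 p) (d : Tw N p) (z : E N) (hq : DifferentiableAt ℝ d.q z) :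
    fderiv ℝ d.q z d.eu = 2 * d.wu z := by
  have h1 : HasLineDerivAt ℝ d.q (fderiv ℝ d.q z d.eu) z d.eu := hq.hasFDerivAt.hasLineDerivAt _
  have h2 : HasDerivAt (fun t : ℝ => d.q (z + t • d.eu)) (2 * d.wu z) 0 := by
    have he : (fun t : ℝ => d.q (z + t • d.eu))
        = fun t => (d.wu z + t) ^ 2 + ((d.wc z) ^ 2 + ‖d.R z‖ ^ 2) := by
      funext t
      simp [Tw.q, d.wueu, wc_eu hp, R_eu hp]
      ring
    rw [he]
    have h3 : HasDerivAt (fun t : ℝ => (d.wu z + t) ^ 2 + ((d.wc z) ^ 2 + ‖d.R z‖ ^ 2))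
        (2 * (d.wu z + 0) ^ 1 * 1) 0 := by
      have := (((hasDerivAt_id (0 : ℝ)).const_add (d.wu z)).pow 2)
      have := (this.add_const ((d.wc z) ^ 2 + ‖d.R z‖ ^ 2))
      simpa using this
    simpa using h3
  exact h1.unique h2

theorem fderiv_X (d : Tw N p) (z : E N) (hq : DifferentiableAt ℝ d.q z) (v : E N) :
    fderiv ℝ d.X z v = (deriv Tw.be (d.q z) * fderiv ℝ d.q z v) • d.J z
      + Tw.be (d.q z) • d.J v := by
  have hb : HasDerivAt Tw.be (deriv Tw.be (d.q z)) (d.q z) :=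
    ((be_contDiff.differentiable (by simp)) (d.q z)).hasDerivAt
  have h1 : HasFDerivAt (fun y => Tw.be (d.q y)) (deriv Tw.be (d.q z) • fderiv ℝ d.q z) z :=
    hb.comp_hasFDerivAt z hq.hasFDerivAt
  have h2 : HasFDerivAt (fun y => d.J y) d.J z := d.J.hasFDerivAt
  have h3 : HasFDerivAt (fun y => Tw.be (d.q y) • d.J y) _ z := h1.smul h2
  have h4 : fderiv ℝ d.X z = _ := h3.fderiv
  rw [h4]
  simp [add_comm]

theorem trace_smulRight' (L : E N →L[ℝ] ℝ) (e : E N) :
    LinearMap.trace ℝ (E N) ((L.smulRight e : End N) : E N →ₗ[ℝ] E N) = L e := by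
  have h1 : ((L.smulRight e : End N) : E N →ₗ[ℝ] E N)
      = dualTensorHom ℝ (E N) (E N) ((L : E N →ₗ[ℝ] ℝ) ⊗ₜ[ℝ] e) := by
    ext v
    simp
  rw [h1, LinearMap.trace_eq_contract_apply]
  simp

theorem g_eq (hp : Proj3 p) (d : Tw N p) (z : E N) (hq : DifferentiableAt ℝ d.q z) :
    d.g z = (Tw.be (d.q z) + 2 * deriv Tw.be (d.q z) * (d.wc z) ^ 2) *
      (Tw.be (d.q z) + 2 * deriv Tw.be (d.q z) * (d.wu z) ^ 2) := by
  set b := Tw.be (d.q z) with hb
  set b' := deriv Tw.be (d.q z) with hb'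
  have hJeu : d.J d.eu = - d.ec := by
    rw [J_apply, wc_eu hp, d.wueu]; simp
  have hcomp : (p 1 * fderiv ℝ d.X z * p 2 * fderiv ℝ d.X z * p 1 : End N)
      = ((-(2 * b' * (d.wu z) ^ 2 + b)) •
          ((b' * d.wc z) • ((fderiv ℝ d.q z) ∘L (p 1)) + b • d.wc)).smulRight d.ec := by
    ext1 v
    have e1 : p 2 (fderiv ℝ d.X z (p 1 v))
        = (b' * fderiv ℝ d.q z (p 1 v) * d.wc z + b * d.wc v) • d.eu := by
      rw [fderiv_X d z hq, J_apply, J_apply, d.wcp]
      simp only [map_add, map_smul, map_sub, d.peu, p2_ec hp, smul_zero, sub_zero]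
      rw [smul_smul, smul_smul, ← add_smul]
    have e2 : p 1 (fderiv ℝ d.X z d.eu) = (-(2 * b' * (d.wu z) ^ 2 + b)) • d.ec := by
      rw [fderiv_X d z hq, q_line_eu hp d z hq, hJeu, J_apply]
      simp only [map_add, map_smul, map_sub, map_neg, d.pec, p1_eu hp, smul_zero, zero_sub]
      module
    change p 1 (fderiv ℝ d.X z (p 2 (fderiv ℝ d.X z (p 1 v)))) = _
    rw [e1, map_smul, map_smul, e2]
    simp only [ContinuousLinearMap.smulRight_apply, smul_apply, add_apply,
      ContinuousLinearMap.comp_apply, smul_eq_mul, smul_smul]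
    congr 1
    ring
  rw [Tw.g, hcomp, trace_smulRight']
  simp only [smul_apply, add_apply,
    ContinuousLinearMap.comp_apply, smul_eq_mul, d.pec, d.wcec, q_line_ec hp d z hq]
  ring

end

theorem f4 : StmtF1 → StmtF4 := by
  intro hF1 N p hp d
  obtain ⟨-, hd⟩ := hF1 N p hp
  obtain ⟨-, hXs, hqs, -, -, -, -, c, hc1, hc⟩ := hd d
  have hqc : Continuous d.q := hqs.continuous
  have hqd : ∀ z, DifferentiableAt ℝ d.q z := fun z => hqs.differentiable (by simp) z
  have hXd : ∀ z, DifferentiableAt ℝ d.X z := fun z => hXs.differentiable (by simp) z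
  have hbc : Continuous Tw.be := be_contDiff.continuous
  have hb'c : Continuous (deriv Tw.be) := be_contDiff.continuous_deriv (by simp)
  have hgeq : ∀ z, d.g z = (Tw.be (d.q z) + 2 * deriv Tw.be (d.q z) * (d.wc z) ^ 2) *
      (Tw.be (d.q z) + 2 * deriv Tw.be (d.q z) * (d.wu z) ^ 2) := fun z => g_eq hp d z (hqd z)
  have hbe0 : ∀ s : ℝ, 1 ≤ s → Tw.be s = 0 := by
    intro s hs
    exact Real.smoothTransition.zero_of_nonpos (by linarith)
  have hde0 : ∀ s : ℝ, 1 < s → deriv Tw.be s = 0 := by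
    intro s hs
    have h1 : Tw.be =ᶠ[𝓝 s] fun _ => (0 : ℝ) := by
      filter_upwards [lt_mem_nhds hs] with y hy
      exact hbe0 y hy.le
    rw [h1.deriv_eq]; simp
  have hgc : Continuous d.g := by
    have : d.g = fun z => (Tw.be (d.q z) + 2 * deriv Tw.be (d.q z) * (d.wc z) ^ 2) *
      (Tw.be (d.q z) + 2 * deriv Tw.be (d.q z) * (d.wu z) ^ 2) := funext hgeq
    rw [this]
    fun_prop
  have hg0 : ∀ z, 1 < d.q z → d.g z = 0 := by
    intro z hz
    rw [hgeq, hbe0 _ hz.le, hde0 _ hz]; ring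
  refine ⟨?_, hgc, hg0, ?_⟩
  · intro z
    have hz : ∀ y, p 0 (d.X y) = 0 := by
      intro y
      rw [Tw.X, J_apply]
      simp [p0_ec hp, p0_eu hp]
    ext1 v
    change p 0 (fderiv ℝ d.X z v) = 0
    rw [fderiv_X d z (hqd z), J_apply, J_apply]
    simp [p0_ec hp, p0_eu hp]
  -- compact support
  have hsupp : ∀ f : E N → ℝ, (∀ z, 1 < d.q z → f z = 0) → HasCompactSupport f := by
    intro f hf
    refine HasCompactSupport.intro (K := Metric.closedBall (0 : E N) (Real.sqrt c))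
      (isCompact_closedBall _ _) ?_
    intro z hz
    apply hf
    by_contra hcon
    push Not at hcon
    apply hz
    rw [mem_closedBall_zero_iff]
    have h1 := (hc z).1
    have h2 : ‖z‖ ^ 2 ≤ c := by nlinarith
    exact Real.le_sqrt_of_sq_le h2
  have hset : ∫ z in {z | d.q z ≤ 1}, d.g z = ∫ z, d.g z := by
    apply setIntegral_eq_integral_of_forall_compl_eq_zero
    intro z hz
    apply hg0
    simpa using hz
  rw [hset]
  -- integration by parts
  have hint : ∀ f : E N → ℝ, Continuous f → (∀ z, 1 < d.q z → f z = 0) → Integrable f :=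
    fun f hf h0 => hf.integrable_of_hasCompactSupport (hsupp f h0)
  have hline : ∀ (z v : E N), HasLineDerivAt ℝ (fun y => Tw.be (d.q y) ^ 2)
      (2 * Tw.be (d.q z) * (deriv Tw.be (d.q z) * fderiv ℝ d.q z v)) z v := by
    intro z v
    have hb : HasDerivAt Tw.be (deriv Tw.be (d.q z)) (d.q z) :=
      ((be_contDiff.differentiable (by simp)) (d.q z)).hasDerivAt
    have h1 : HasFDerivAt (fun y => Tw.be (d.q y)) (deriv Tw.be (d.q z) • fderiv ℝ d.q z) z :=
      hb.comp_hasFDerivAt z (hqd z).hasFDerivAt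
    have h2 := (h1.pow 2).hasLineDerivAt v
    have h3 : (((2 : ℕ) • Tw.be (d.q z) ^ (2 - 1)) • deriv Tw.be (d.q z) • fderiv ℝ d.q z) v
        = 2 * Tw.be (d.q z) * (deriv Tw.be (d.q z) * fderiv ℝ d.q z v) := by
      simp
    rw [← h3]
    exact h2
  have hparts : ∀ (w : E N →L[ℝ] ℝ) (e : E N), w e = 1 →
      (∀ z, fderiv ℝ d.q z e = 2 * w z) →
      ∫ z, Tw.be (d.q z) ^ 2 = - ∫ z, 4 * Tw.be (d.q z) * deriv Tw.be (d.q z) * (w z) ^ 2 := by
    intro w e hwe hqe
    have h := integral_bilinear_hasLineDerivAt_right_eq_neg_left_of_integrable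
      (μ := (volume : Measure (E N))) (B := ContinuousLinearMap.mul ℝ ℝ)
      (f := fun z => Tw.be (d.q z) ^ 2)
      (f' := fun z => 2 * Tw.be (d.q z) * (deriv Tw.be (d.q z) * fderiv ℝ d.q z e))
      (g := fun z => w z) (g' := fun _ => 1) (v := e) ?_ ?_ ?_ (fun x _ => hline x e) ?_
    · simp only [ContinuousLinearMap.mul_apply', mul_one] at h
      rw [h]
      congr 1
      apply integral_congr_ae
      filter_upwards with z
      rw [hqe z]; ring
    · simp only [ContinuousLinearMap.mul_apply', hqe]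
      apply hint
      · fun_prop
      · intro z hz; rw [hbe0 _ hz.le]; ring
    · simp only [ContinuousLinearMap.mul_apply', mul_one]
      apply hint
      · fun_prop
      · intro z hz; rw [hbe0 _ hz.le]; ring
    · simp only [ContinuousLinearMap.mul_apply']
      apply hint
      · fun_prop
      · intro z hz; rw [hbe0 _ hz.le]; ring
    · intro x _
      have := (w.hasFDerivAt (x := x)).hasLineDerivAt e
      rwa [hwe] at this
  have hI1 := hparts d.wc d.ec d.wcec (fun z => q_line_ec hp d z (hqd z))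
  have hI2 := hparts d.wu d.eu d.wueu (fun z => q_line_eu hp d z (hqd z))
  have hsplit : ∀ z, d.g z = (Tw.be (d.q z) ^ 2
      + (1 / 2) * (4 * Tw.be (d.q z) * deriv Tw.be (d.q z) * (d.wc z) ^ 2)
      + (1 / 2) * (4 * Tw.be (d.q z) * deriv Tw.be (d.q z) * (d.wu z) ^ 2))
      + 4 * (deriv Tw.be (d.q z)) ^ 2 * (d.wc z) ^ 2 * (d.wu z) ^ 2 := by
    intro z
    rw [hgeq]; ring
  have hi1 : Integrable (fun z => Tw.be (d.q z) ^ 2) := by
    apply hint
    · fun_prop
    · intro z hz; rw [hbe0 _ hz.le]; ring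
  have hi2 : Integrable (fun z => 4 * Tw.be (d.q z) * deriv Tw.be (d.q z) * (d.wc z) ^ 2) := by
    apply hint
    · fun_prop
    · intro z hz; rw [hbe0 _ hz.le]; ring
  have hi3 : Integrable (fun z => 4 * Tw.be (d.q z) * deriv Tw.be (d.q z) * (d.wu z) ^ 2) := by
    apply hint
    · fun_prop
    · intro z hz; rw [hbe0 _ hz.le]; ring
  have h40 : ∀ z, 1 < d.q z →
      4 * (deriv Tw.be (d.q z)) ^ 2 * (d.wc z) ^ 2 * (d.wu z) ^ 2 = 0 := by
    intro z hz; rw [hde0 _ hz]; ring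
  have h4c : Continuous (fun z => 4 * (deriv Tw.be (d.q z)) ^ 2 * (d.wc z) ^ 2 * (d.wu z) ^ 2) := by
    fun_prop
  have hi4 : Integrable (fun z => 4 * (deriv Tw.be (d.q z)) ^ 2 * (d.wc z) ^ 2 * (d.wu z) ^ 2) :=
    hint _ h4c h40
  have hgint : ∫ z, d.g z
      = ∫ z, 4 * (deriv Tw.be (d.q z)) ^ 2 * (d.wc z) ^ 2 * (d.wu z) ^ 2 := by
    have hA : Integrable (fun z => Tw.be (d.q z) ^ 2
        + (1 / 2) * (4 * Tw.be (d.q z) * deriv Tw.be (d.q z) * (d.wc z) ^ 2)) :=
      hi1.add (hi2.const_mul (1 / 2))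
    have hB : Integrable (fun z => Tw.be (d.q z) ^ 2
        + (1 / 2) * (4 * Tw.be (d.q z) * deriv Tw.be (d.q z) * (d.wc z) ^ 2)
        + (1 / 2) * (4 * Tw.be (d.q z) * deriv Tw.be (d.q z) * (d.wu z) ^ 2)) :=
      hA.add (hi3.const_mul (1 / 2))
    rw [integral_congr_ae (Eventually.of_forall hsplit)]
    rw [integral_add hB hi4]
    rw [integral_add hA (hi3.const_mul (1 / 2))]
    rw [integral_add hi1 (hi2.const_mul (1 / 2))]
    rw [integral_const_mul, integral_const_mul]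
    linarith
  rw [hgint]
  -- a point where the integrand is positive
  obtain ⟨s, hs, hds⟩ := exists_deriv_eq_slope Tw.be (show (1 / 2 : ℝ) < 1 by norm_num)
    hbc.continuousOn (be_contDiff.differentiable (by simp)).differentiableOn
  have hb1 : Tw.be 1 = 0 := hbe0 1 le_rfl
  have hbh : Tw.be (1 / 2) = 1 := Real.smoothTransition.one_of_one_le (by norm_num)
  rw [hb1, hbh] at hds
  have hs0 : 0 < s := by linarith [hs.1]
  set a : ℝ := Real.sqrt (s / 2) with ha
  have ha2 : a ^ 2 = s / 2 := Real.sq_sqrt (by linarith)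
  have ha0 : 0 < a := Real.sqrt_pos.mpr (by linarith)
  have hwcz : d.wc (a • (d.ec + d.eu)) = a := by
    simp [d.wcec, wc_eu hp]
  have hwuz : d.wu (a • (d.ec + d.eu)) = a := by
    simp [d.wueu, wu_ec hp]
  have hqz : d.q (a • (d.ec + d.eu)) = s := by
    rw [Tw.q, hwcz, hwuz, map_smul, map_add, R_ec hp, R_eu hp]
    simp [ha2]
  refine Continuous.integral_pos_of_hasCompactSupport_nonneg_nonzero h4c (hsupp _ h40) ?_
    (x := a • (d.ec + d.eu)) ?_
  · intro z
    positivity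
  · rw [hqz, hwcz, hwuz, hds]
    have : (0 : ℝ) < 4 * ((0 - 1) / (1 - 1 / 2)) ^ 2 * a ^ 2 * a ^ 2 := by
      have h4 : (0 : ℝ) < 4 * ((0 - 1) / (1 - 1 / 2)) ^ 2 := by norm_num
      positivity
    exact this.ne'

end Pool.Agent.Helper34.RZ
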