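import Mathlib
import Pool.Agent.Helper56.RZ.GoalsB
import Pool.Agent.Helper34.RZ.F4

/-!
Packet RZ-F1 (project of helper56, MP_f32c9c_an): elementary properties of the twist.
-/

set_option autoImplicit false

open Set Filter Topology MeasureTheory
open scoped ContDiff
open Pool.Agent.Helper56.RZ

namespace Pool.Agent.Helper34.RZ

section
variable {N : ℕ} {p : Fin 3 → End N}

theorem exists_dual (e : E N) (he : e ≠ 0) : ∃ w : E N →L[ℝ] ℝ, w e = 1 := by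
  refine ⟨(‖e‖ ^ 2)⁻¹ • innerSL ℝ e, ?_⟩
  have h : ‖e‖ ≠ 0 := norm_ne_zero_iff.mpr he
  simp [h]

theorem nonempty_tw (hp : Proj3 p) (h1 : p 1 ≠ 0) (h2 : p 2 ≠ 0) : Nonempty (Tw N p) := by
  have hex : ∀ i, p i ≠ 0 → ∃ e : E N, p i e = e ∧ ∃ w : E N →L[ℝ] ℝ,
      (∀ v, w (p i v) = w v) ∧ w e = 1 := by
    intro i hi
    obtain ⟨v, hv⟩ : ∃ v, p i v ≠ 0 := by
      by_contra hcon
      push Not at hcon
      exact hi (ContinuousLinearMap.ext hcon)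
    have hii : ∀ v, p i (p i v) = p i v := by
      intro v
      have h := hp.proj i i
      rw [if_pos rfl] at h
      exact congrArg (fun A : End N => A v) h
    obtain ⟨w, hw⟩ := exists_dual (p i v) hv
    refine ⟨p i v, hii v, w ∘L (p i), ?_, ?_⟩
    · intro u
      simp [hii]
    · simp [hii, hw]
  obtain ⟨ec, hec, wc, hwc, hwc1⟩ := hex 1 h1
  obtain ⟨eu, heu, wu, hwu, hwu1⟩ := hex 2 h2
  exact ⟨⟨ec, eu, wc, wu, hec, heu, hwc, hwu, hwc1, hwu1⟩⟩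

theorem q_contDiff (d : Tw N p) : ContDiff ℝ ∞ d.q := by
  have h1 : ContDiff ℝ ∞ (fun z => (d.wc z) ^ 2) := d.wc.contDiff.pow 2
  have h2 : ContDiff ℝ ∞ (fun z => (d.wu z) ^ 2) := d.wu.contDiff.pow 2
  have h3 : ContDiff ℝ ∞ (fun z => ‖d.R z‖ ^ 2) := d.R.contDiff.norm_sq ℝ
  exact (h1.add h2).add h3

theorem X_contDiff (d : Tw N p) : ContDiff ℝ ∞ d.X :=
  (be_contDiff.comp (q_contDiff d)).smul d.J.contDiff

theorem H_contDiff (d : Tw N p) : ContDiff ℝ ∞ (fun a : ℝ × E N => d.H a.1 a.2) := by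
  have hphi : ContDiff ℝ ∞ (fun a : ℝ × E N => a.1 * Tw.be (d.q a.2)) :=
    contDiff_fst.mul ((be_contDiff.comp (q_contDiff d)).comp contDiff_snd)
  have hcos : ContDiff ℝ ∞ (fun a : ℝ × E N => Real.cos (a.1 * Tw.be (d.q a.2)) - 1) :=
    (Real.contDiff_cos.comp hphi).sub contDiff_const
  have hsin : ContDiff ℝ ∞ (fun a : ℝ × E N => Real.sin (a.1 * Tw.be (d.q a.2))) :=
    Real.contDiff_sin.comp hphi
  have hw : ContDiff ℝ ∞ (fun a : ℝ × E N => d.wc a.2 • d.ec + d.wu a.2 • d.eu) :=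
    ((d.wc.contDiff.comp contDiff_snd).smul contDiff_const).add
      ((d.wu.contDiff.comp contDiff_snd).smul contDiff_const)
  have hJ : ContDiff ℝ ∞ (fun a : ℝ × E N => d.J a.2) := d.J.contDiff.comp contDiff_snd
  exact (contDiff_snd.add (hcos.smul hw)).add (hsin.smul hJ)

theorem wc_H (hp : Proj3 p) (d : Tw N p) (t : ℝ) (z : E N) :
    d.wc (d.H t z) = Real.cos (t * Tw.be (d.q z)) * d.wc z
      - Real.sin (t * Tw.be (d.q z)) * d.wu z := by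
  simp only [Tw.H, J_apply, map_add, map_smul, map_sub, d.wcec, wc_eu hp, smul_eq_mul]
  ring

theorem wu_H (hp : Proj3 p) (d : Tw N p) (t : ℝ) (z : E N) :
    d.wu (d.H t z) = Real.sin (t * Tw.be (d.q z)) * d.wc z
      + Real.cos (t * Tw.be (d.q z)) * d.wu z := by
  simp only [Tw.H, J_apply, map_add, map_smul, map_sub, d.wueu, wu_ec hp, smul_eq_mul]
  ring

theorem R_H (hp : Proj3 p) (d : Tw N p) (t : ℝ) (z : E N) : d.R (d.H t z) = d.R z := by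
  simp only [Tw.H, J_apply, map_add, map_smul, map_sub, R_ec hp, R_eu hp, smul_zero, sub_zero,
    add_zero]

theorem q_H (hp : Proj3 p) (d : Tw N p) (t : ℝ) (z : E N) : d.q (d.H t z) = d.q z := by
  have h1 : d.q (d.H t z) = (d.wc (d.H t z)) ^ 2 + (d.wu (d.H t z)) ^ 2 + ‖d.R (d.H t z)‖ ^ 2 := rfl
  have h2 : d.q z = (d.wc z) ^ 2 + (d.wu z) ^ 2 + ‖d.R z‖ ^ 2 := rfl
  rw [h1, wc_H hp, wu_H hp, R_H hp]
  have h3 := Real.sin_sq_add_cos_sq (t * Tw.be (d.q z))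
  rw [h2] at h3 ⊢
  linear_combination ((d.wc z) ^ 2 + (d.wu z) ^ 2) * h3

theorem H_H (hp : Proj3 p) (d : Tw N p) (t : ℝ) (z : E N) : d.H (-t) (d.H t z) = z := by
  have h1 : d.H (-t) (d.H t z) = d.H t z + (Real.cos (-t * Tw.be (d.q (d.H t z))) - 1) •
      (d.wc (d.H t z) • d.ec + d.wu (d.H t z) • d.eu) +
      Real.sin (-t * Tw.be (d.q (d.H t z))) • d.J (d.H t z) := rfl
  have h2 : d.H t z = z + (Real.cos (t * Tw.be (d.q z)) - 1) •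
      (d.wc z • d.ec + d.wu z • d.eu) + Real.sin (t * Tw.be (d.q z)) • d.J z := rfl
  rw [h1, J_apply d (d.H t z), wc_H hp, wu_H hp, q_H hp, neg_mul, Real.cos_neg, Real.sin_neg, h2,
    J_apply]
  set φ := t * Tw.be (d.q z) with hφ
  have h3 := Real.sin_sq_add_cos_sq φ
  have hc : Real.cos φ ^ 2 = 1 - Real.sin φ ^ 2 := by linarith
  have key : z + (Real.cos φ - 1) • (d.wc z • d.ec + d.wu z • d.eu) +
      Real.sin φ • (d.wc z • d.eu - d.wu z • d.ec) +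
      (Real.cos φ - 1) • ((Real.cos φ * d.wc z - Real.sin φ * d.wu z) • d.ec +
        (Real.sin φ * d.wc z + Real.cos φ * d.wu z) • d.eu) +
      -Real.sin φ • ((Real.cos φ * d.wc z - Real.sin φ * d.wu z) • d.eu -
        (Real.sin φ * d.wc z + Real.cos φ * d.wu z) • d.ec)
      = z + (((Real.sin φ ^ 2 + Real.cos φ ^ 2) - 1) * d.wc z) • d.ec
        + (((Real.sin φ ^ 2 + Real.cos φ ^ 2) - 1) * d.wu z) • d.eu := by
    module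
  rw [key, h3]
  simp

theorem q_bound (d : Tw N p) : ∃ c : ℝ, 1 ≤ c ∧ ∀ z, ‖z‖ ^ 2 ≤ c * d.q z ∧ d.q z ≤ c * ‖z‖ ^ 2 := by
  refine ⟨3 * (1 + ‖d.ec‖ ^ 2 + ‖d.eu‖ ^ 2) + (‖d.wc‖ ^ 2 + ‖d.wu‖ ^ 2 + ‖d.R‖ ^ 2), ?_, ?_⟩
  · have : 0 ≤ ‖d.ec‖ ^ 2 := by positivity
    have : 0 ≤ ‖d.eu‖ ^ 2 := by positivity
    have : 0 ≤ ‖d.wc‖ ^ 2 + ‖d.wu‖ ^ 2 + ‖d.R‖ ^ 2 := by positivity
    linarith
  · intro z
    have hq : d.q z = (d.wc z) ^ 2 + (d.wu z) ^ 2 + ‖d.R z‖ ^ 2 := rfl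
    constructor
    · have hz : z = d.wc z • d.ec + d.wu z • d.eu + d.R z := by
        rw [R_apply]; abel
      have h1 : ‖z‖ ≤ |d.wc z| * ‖d.ec‖ + |d.wu z| * ‖d.eu‖ + ‖d.R z‖ := by
        calc ‖z‖ = ‖d.wc z • d.ec + d.wu z • d.eu + d.R z‖ := by rw [← hz]
          _ ≤ ‖d.wc z • d.ec‖ + ‖d.wu z • d.eu‖ + ‖d.R z‖ := norm_add₃_le
          _ = _ := by rw [norm_smul, norm_smul, Real.norm_eq_abs, Real.norm_eq_abs]
      have h2 : ‖z‖ ^ 2 ≤ (|d.wc z| * ‖d.ec‖ + |d.wu z| * ‖d.eu‖ + ‖d.R z‖) ^ 2 :=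
        pow_le_pow_left₀ (norm_nonneg _) h1 2
      have h3 : (|d.wc z| * ‖d.ec‖ + |d.wu z| * ‖d.eu‖ + ‖d.R z‖) ^ 2
          ≤ 3 * ((d.wc z) ^ 2 * ‖d.ec‖ ^ 2 + (d.wu z) ^ 2 * ‖d.eu‖ ^ 2 + ‖d.R z‖ ^ 2) := by
        have ha : |d.wc z| ^ 2 = (d.wc z) ^ 2 := sq_abs _
        have hb : |d.wu z| ^ 2 = (d.wu z) ^ 2 := sq_abs _
        nlinarith [sq_nonneg (|d.wc z| * ‖d.ec‖ - |d.wu z| * ‖d.eu‖),
          sq_nonneg (|d.wc z| * ‖d.ec‖ - ‖d.R z‖), sq_nonneg (|d.wu z| * ‖d.eu‖ - ‖d.R z‖)]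
      have h4 : 3 * ((d.wc z) ^ 2 * ‖d.ec‖ ^ 2 + (d.wu z) ^ 2 * ‖d.eu‖ ^ 2 + ‖d.R z‖ ^ 2)
          ≤ 3 * (1 + ‖d.ec‖ ^ 2 + ‖d.eu‖ ^ 2) * d.q z := by
        rw [hq]
        have e1 : 0 ≤ (d.wc z) ^ 2 := by positivity
        have e2 : 0 ≤ (d.wu z) ^ 2 := by positivity
        have e3 : 0 ≤ ‖d.R z‖ ^ 2 := by positivity
        have e4 : 0 ≤ ‖d.ec‖ ^ 2 := by positivity
        have e5 : 0 ≤ ‖d.eu‖ ^ 2 := by positivity
        nlinarith [mul_nonneg e1 e4, mul_nonneg e1 e5, mul_nonneg e2 e4, mul_nonneg e2 e5,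
          mul_nonneg e3 e4, mul_nonneg e3 e5]
      have h5 : 0 ≤ (‖d.wc‖ ^ 2 + ‖d.wu‖ ^ 2 + ‖d.R‖ ^ 2) * d.q z := by
        rw [hq]; positivity
      rw [add_mul]
      linarith
    · have h1 : (d.wc z) ^ 2 ≤ ‖d.wc‖ ^ 2 * ‖z‖ ^ 2 := by
        have := d.wc.le_opNorm z
        rw [← sq_abs, ← mul_pow]
        exact pow_le_pow_left₀ (abs_nonneg _) this 2
      have h2 : (d.wu z) ^ 2 ≤ ‖d.wu‖ ^ 2 * ‖z‖ ^ 2 := by
        have := d.wu.le_opNorm z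
        rw [← sq_abs, ← mul_pow]
        exact pow_le_pow_left₀ (abs_nonneg _) this 2
      have h3 : ‖d.R z‖ ^ 2 ≤ ‖d.R‖ ^ 2 * ‖z‖ ^ 2 := by
        have := d.R.le_opNorm z
        rw [← mul_pow]
        exact pow_le_pow_left₀ (norm_nonneg _) this 2
      have h5 : 0 ≤ 3 * (1 + ‖d.ec‖ ^ 2 + ‖d.eu‖ ^ 2) * ‖z‖ ^ 2 := by positivity
      rw [hq, add_mul]
      linarith [add_mul (‖d.wc‖ ^ 2 + ‖d.wu‖ ^ 2) (‖d.R‖ ^ 2) (‖z‖ ^ 2),
        add_mul (‖d.wc‖ ^ 2) (‖d.wu‖ ^ 2) (‖z‖ ^ 2)]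

end

theorem f1 : StmtF1 := by
  intro N p hp
  refine ⟨fun h => nonempty_tw hp (h 1) (h 2), ?_⟩
  intro d
  refine ⟨H_contDiff d, X_contDiff d, q_contDiff d, q_H hp d, H_H hp d, ?_, ?_, q_bound d⟩
  · intro z
    simp [Tw.H]
  · intro t z hz
    have h0 : Tw.be (d.q z) = 0 := Real.smoothTransition.zero_of_nonpos (by linarith)
    simp [Tw.H, h0]

end Pool.Agent.Helper34.RZ
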